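import Mathlib

set_option autoImplicit false
open Set Filter Topology Metric InnerProductSpace

namespace Pool.Agent.Results.MP_1096cc_an.ThreeBalls

/-- `‖u‖_s = sup_{B(0,s)} |u|`, for a complex function on `ℝ^n`. -/
noncomputable def supNorm {n : ℕ} (u : EuclideanSpace ℝ (Fin n) → ℂ) (s : ℝ) : ℝ :=
  sSup ((fun x => ‖u x‖) '' ball 0 s)

/-- The class `H`: harmonic functions on the open unit ball with `sup_B |u| = 1`. -/
def ClassH (n : ℕ) : Set (EuclideanSpace ℝ (Fin n) → ℂ) :=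
  {u | HarmonicOnNhd u (ball 0 1) ∧ IsLUB ((fun x => ‖u x‖) '' ball 0 1) 1}

/-- There is a finite constant `K = K(ρ, r, n)` in the three balls inequality with the Hadamard
exponent `β = log r / log ρ`. -/
def HasFiniteConstant (n : ℕ) (ρ r : ℝ) : Prop :=
  ∃ K : ℝ, ∀ u ∈ ClassH n, supNorm u r ≤ K * supNorm u ρ ^ (Real.log r / Real.log ρ)

/-! ### Dimension at least three -/

section high

variable {n : ℕ}

/-- the linear map `x ↦ ⟨e, x⟩ + i ⟨w, x⟩` -/
noncomputable def L (e w : EuclideanSpace ℝ (Fin n)) : EuclideanSpace ℝ (Fin n) →L[ℝ] ℂ :=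
  Complex.ofRealCLM.comp (innerSL ℝ e) + Complex.I • Complex.ofRealCLM.comp (innerSL ℝ w)

theorem L_apply (e w x : EuclideanSpace ℝ (Fin n)) :
    L e w x = (inner ℝ e x : ℂ) + Complex.I * (inner ℝ w x : ℂ) := by
  simp [L]

theorem harmonic_comp (f : ℂ → ℂ) (hf : Differentiable ℂ f) (e w : EuclideanSpace ℝ (Fin n))
    (he : inner ℝ e e = (1 : ℝ)) (hw : inner ℝ w w = (1 : ℝ)) (hew : inner ℝ e w = (0 : ℝ))
    (x : EuclideanSpace ℝ (Fin n)) : HarmonicAt (fun x => f (L e w x)) x := by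
  have hcd : ContDiff ℝ 2 f := (hf.contDiff (n := 2)).restrict_scalars ℝ
  refine ⟨(hcd.comp (L e w).contDiff).contDiffAt, Filter.Eventually.of_forall fun y => ?_⟩
  have hd1 : fderiv ℝ (fun x => f (L e w x)) = fun x => (deriv f (L e w x)) • L e w := by
    funext z
    have h1 : HasFDerivAt f ((ContinuousLinearMap.toSpanSingleton ℂ (deriv f (L e w z))).restrictScalars ℝ) (L e w z) :=
      (hf (L e w z)).hasDerivAt.hasFDerivAt.restrictScalars ℝ
    have h2 := h1.comp z (L e w).hasFDerivAt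
    have h3 : (fun x => f (L e w x)) = f ∘ (L e w) := rfl
    rw [h3, h2.fderiv]
    ext v
    simp [mul_comm]
  have hdf : Differentiable ℂ (deriv f) := by
    have := (hf.contDiff (n := 2))
    exact (this.differentiable_deriv_two)
  have hd2 : ∀ v w', fderiv ℝ (fun x => (deriv f (L e w x)) • L e w) y v w'
      = deriv (deriv f) (L e w y) * L e w v * L e w w' := by
    intro v w'
    have h1 : HasFDerivAt (deriv f) ((ContinuousLinearMap.toSpanSingleton ℂ (deriv (deriv f) (L e w y))).restrictScalars ℝ) (L e w y) :=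
      (hdf (L e w y)).hasDerivAt.hasFDerivAt.restrictScalars ℝ
    have h2 := h1.comp y (L e w).hasFDerivAt
    have h3 := h2.smul_const (L e w)
    have h4 : (fun x => (deriv f (L e w x)) • L e w) = fun x => ((deriv f) ∘ (L e w)) x • L e w := rfl
    rw [h4, h3.fderiv]
    simp [mul_comm, mul_left_comm]
  rw [laplacian_eq_iteratedFDeriv_orthonormalBasis _ (EuclideanSpace.basisFun (Fin n) ℝ)]
  simp only [iteratedFDeriv_two_apply, Matrix.cons_val_zero, Matrix.cons_val_one, Pi.zero_apply]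
  rw [hd1]
  simp only [hd2, mul_assoc]
  rw [← Finset.mul_sum]
  have hs : ∀ i, L e w ((EuclideanSpace.basisFun (Fin n) ℝ) i) * L e w ((EuclideanSpace.basisFun (Fin n) ℝ) i)
    = (((inner ℝ e ((EuclideanSpace.basisFun (Fin n) ℝ) i)) * (inner ℝ ((EuclideanSpace.basisFun (Fin n) ℝ) i) e)
      - (inner ℝ w ((EuclideanSpace.basisFun (Fin n) ℝ) i)) * (inner ℝ ((EuclideanSpace.basisFun (Fin n) ℝ) i) w) : ℝ) : ℂ)
      + 2 * Complex.I * ((inner ℝ e ((EuclideanSpace.basisFun (Fin n) ℝ) i) * (inner ℝ ((EuclideanSpace.basisFun (Fin n) ℝ) i) w) : ℝ) : ℂ) := by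
    intro i
    have c1 : inner ℝ ((EuclideanSpace.basisFun (Fin n) ℝ) i) e
      = inner ℝ e ((EuclideanSpace.basisFun (Fin n) ℝ) i) := real_inner_comm _ _
    have c2 : inner ℝ ((EuclideanSpace.basisFun (Fin n) ℝ) i) w
      = inner ℝ w ((EuclideanSpace.basisFun (Fin n) ℝ) i) := real_inner_comm _ _
    rw [L_apply, c1, c2]
    push_cast
    have := Complex.I_sq
    linear_combination ((inner ℝ w ((EuclideanSpace.basisFun (Fin n) ℝ) i) : ℝ) : ℂ) * ((inner ℝ w ((EuclideanSpace.basisFun (Fin n) ℝ) i) : ℝ) : ℂ) * this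
  have : ∑ i, L e w ((EuclideanSpace.basisFun (Fin n) ℝ) i) * L e w ((EuclideanSpace.basisFun (Fin n) ℝ) i) = 0 := by
    simp only [hs]
    rw [Finset.sum_add_distrib, ← Finset.mul_sum, ← Complex.ofReal_sum, ← Complex.ofReal_sum,
      Finset.sum_sub_distrib, OrthonormalBasis.sum_inner_mul_inner,
      OrthonormalBasis.sum_inner_mul_inner, OrthonormalBasis.sum_inner_mul_inner, he, hw, hew]
    simp
  rw [this, mul_zero]

theorem norm_sq_decomp (e w : EuclideanSpace ℝ (Fin n))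
    (he : inner ℝ e e = (1 : ℝ)) (hw : inner ℝ w w = (1 : ℝ)) (hew : inner ℝ e w = (0 : ℝ))
    (x : EuclideanSpace ℝ (Fin n)) :
    ‖x‖ ^ 2 = ‖L e w x‖ ^ 2 + ‖x - (inner ℝ e x : ℝ) • e - (inner ℝ w x : ℝ) • w‖ ^ 2 := by
  have h1 : ‖L e w x‖ ^ 2 = (inner ℝ e x : ℝ) ^ 2 + (inner ℝ w x : ℝ) ^ 2 := by
    rw [← Complex.normSq_eq_norm_sq, L_apply, Complex.normSq_apply]
    simp
    ring
  have hwe : inner ℝ w e = (0 : ℝ) := by rw [real_inner_comm]; exact hew
  rw [h1, ← real_inner_self_eq_norm_sq, ← real_inner_self_eq_norm_sq]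
  simp only [inner_sub_left, inner_sub_right, inner_smul_left, inner_smul_right, he, hw, hew, hwe]
  rw [real_inner_comm x e, real_inner_comm x w]
  simp
  ring

theorem L_norm_le (e w : EuclideanSpace ℝ (Fin n))
    (he : inner ℝ e e = (1 : ℝ)) (hw : inner ℝ w w = (1 : ℝ)) (hew : inner ℝ e w = (0 : ℝ))
    (x : EuclideanSpace ℝ (Fin n)) : ‖L e w x‖ ≤ ‖x‖ := by
  have h := norm_sq_decomp e w he hw hew x
  exact le_of_sq_le_sq (by nlinarith [sq_nonneg ‖x - (inner ℝ e x : ℝ) • e - (inner ℝ w x : ℝ) • w‖]) (norm_nonneg _)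

/-- a family of unit vectors orthogonal to `e`, pairwise not parallel -/
structure Fam (e : EuclideanSpace ℝ (Fin n)) (w : ℕ → EuclideanSpace ℝ (Fin n)) : Prop where
  ee : inner ℝ e e = (1 : ℝ)
  ww : ∀ m, inner ℝ (w m) (w m) = (1 : ℝ)
  ew : ∀ m, inner ℝ e (w m) = (0 : ℝ)
  par : ∀ m m' : ℕ, m ≠ m' → ∀ a b : ℝ, a • w m = b • w m' → a = 0

theorem resid_zero {e : EuclideanSpace ℝ (Fin n)} {w : ℕ → EuclideanSpace ℝ (Fin n)} (h : Fam e w)
    {m : ℕ} {s : ℝ} {x : EuclideanSpace ℝ (Fin n)} (hx : ‖x‖ ≤ s) (hm : ‖L e (w m) x‖ = s) :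
    x = (inner ℝ e x : ℝ) • e + (inner ℝ (w m) x : ℝ) • w m ∧ ‖x‖ = s := by
  have h1 := norm_sq_decomp e (w m) h.ee (h.ww m) (h.ew m) x
  have h2 : ‖x‖ ^ 2 ≤ ‖L e (w m) x‖ ^ 2 := by rw [hm]; gcongr
  have h3 : ‖x - (inner ℝ e x : ℝ) • e - (inner ℝ (w m) x : ℝ) • w m‖ ^ 2 = 0 :=
    le_antisymm (by linarith) (sq_nonneg _)
  have h4 : x - (inner ℝ e x : ℝ) • e - (inner ℝ (w m) x : ℝ) • w m = 0 :=
    norm_eq_zero.1 (pow_eq_zero_iff (two_ne_zero) |>.1 h3)
  refine ⟨?_, le_antisymm hx ?_⟩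
  · rw [sub_sub, sub_eq_zero] at h4
    exact h4
  · rw [← hm]; exact L_norm_le e (w m) h.ee (h.ww m) (h.ew m) x

theorem two_zero {e : EuclideanSpace ℝ (Fin n)} {w : ℕ → EuclideanSpace ℝ (Fin n)} (h : Fam e w)
    {m m' : ℕ} (hmm : m ≠ m') {s : ℝ} {x : EuclideanSpace ℝ (Fin n)} (hx : ‖x‖ ≤ s)
    (hm : ‖L e (w m) x‖ = s) (hm' : ‖L e (w m') x‖ = s) {g : ℂ → ℂ} (g1 : g s = 0)
    (g2 : g (-s) = 0) (k : ℕ) : g (L e (w k) x) = 0 := by
  obtain ⟨h1, hs⟩ := resid_zero h hx hm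
  obtain ⟨h2, -⟩ := resid_zero h hx hm'
  have h3 : (inner ℝ (w m) x : ℝ) • w m = (inner ℝ (w m') x : ℝ) • w m' := by
    have : (inner ℝ e x : ℝ) • e + (inner ℝ (w m) x : ℝ) • w m
      = (inner ℝ e x : ℝ) • e + (inner ℝ (w m') x : ℝ) • w m' := by rw [← h1, ← h2]
    exact add_left_cancel this
  have h4 := h.par m m' hmm _ _ h3
  rw [h4, zero_smul, add_zero] at h1
  set c : ℝ := inner ℝ e x with hc
  have hck : inner ℝ (w k) x = (0 : ℝ) := by
    rw [h1, inner_smul_right, real_inner_comm, h.ew k, mul_zero]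
  have hL : L e (w k) x = (c : ℂ) := by
    rw [L_apply, hck, ← hc]; simp
  have hen : ‖e‖ = 1 := by
    have := h.ee
    rw [real_inner_self_eq_norm_sq] at this
    nlinarith [norm_nonneg e]
  have habs : |c| = s := by
    rw [← hs, h1, norm_smul, hen, mul_one, Real.norm_eq_abs]
  rw [hL]
  rcases abs_choice c with h5 | h5
  · rw [h5] at habs; rw [habs]; exact g1
  · rw [h5] at habs
    have : c = -s := by linarith
    rw [this]; push_cast; exact g2

/-- the limit of the normalised sums -/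
theorem limit_le {e : EuclideanSpace ℝ (Fin n)} {w : ℕ → EuclideanSpace ℝ (Fin n)} (h : Fam e w)
    (M : ℕ) {s G : ℝ} (hG : 0 ≤ G) {x : EuclideanSpace ℝ (Fin n)} (hx : ‖x‖ ≤ s) {g : ℂ → ℂ}
    (g1 : g s = 0) (g2 : g (-s) = 0) (g3 : ∀ z, ‖z‖ ≤ s → ‖g z‖ ≤ G) :
    ∑ m ∈ Finset.range M, (if ‖L e (w m) x‖ = s then ‖g (L e (w m) x)‖ else 0) ≤ G := by
  by_cases h0 : ∃ m ∈ Finset.range M, ‖L e (w m) x‖ = s
  · obtain ⟨m, hm, hms⟩ := h0
    by_cases h1 : ∃ m', m' ≠ m ∧ ‖L e (w m') x‖ = s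
    · obtain ⟨m', hm'm, hm's⟩ := h1
      have : ∀ k, g (L e (w k) x) = 0 := two_zero h hm'm hx hm's hms g1 g2
      simp [this, hG]
    · push Not at h1
      rw [Finset.sum_eq_single m]
      · rw [if_pos hms]; exact g3 _ hms.le
      · intro b _ hb; rw [if_neg (h1 b hb)]
      · intro hm'; exact absurd hm hm'
  · push Not at h0
    rw [Finset.sum_eq_zero]
    · exact hG
    · intro b hb; rw [if_neg (h0 b hb)]

/-- the uniform bound, by compactness -/
theorem unif {e : EuclideanSpace ℝ (Fin n)} {w : ℕ → EuclideanSpace ℝ (Fin n)} (h : Fam e w)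
    (M : ℕ) {s G : ℝ} (hs : 0 < s) (hG : 0 ≤ G) {g : ℂ → ℂ} (gc : Continuous g)
    (g1 : g s = 0) (g2 : g (-s) = 0) (g3 : ∀ z, ‖z‖ ≤ s → ‖g z‖ ≤ G) :
    ∃ N₀ : ℕ, ∀ N ≥ N₀, ∀ x : EuclideanSpace ℝ (Fin n), ‖x‖ ≤ s →
      ∑ m ∈ Finset.range M, ‖L e (w m) x‖ ^ N * ‖g (L e (w m) x)‖ ≤ s ^ N * (G + 1) := by
  let hf : ℕ → EuclideanSpace ℝ (Fin n) → ℝ := fun N x =>
    ∑ m ∈ Finset.range M, (‖L e (w m) x‖ / s) ^ N * ‖g (L e (w m) x)‖
  have hfc : ∀ N, Continuous (hf N) := by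
    intro N
    refine continuous_finsetSum _ (fun m _ => ?_)
    have := (L e (w m)).continuous
    fun_prop
  have hle1 : ∀ m, ∀ x : EuclideanSpace ℝ (Fin n), ‖x‖ ≤ s → ‖L e (w m) x‖ / s ≤ 1 := by
    intro m x hx
    rw [div_le_one hs]
    exact (L_norm_le e (w m) h.ee (h.ww m) (h.ew m) x).trans hx
  have hanti : ∀ x : EuclideanSpace ℝ (Fin n), ‖x‖ ≤ s → Antitone (fun N => hf N x) := by
    intro x hx
    refine fun a b hab => Finset.sum_le_sum (fun m _ => ?_)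
    gcongr ?_ * _
    exact pow_le_pow_of_le_one (by positivity) (hle1 m x hx) hab
  let C : ℕ → Set (EuclideanSpace ℝ (Fin n)) := fun N => closedBall 0 s ∩ {x | G + 1 ≤ hf N x}
  have key : ∃ N₀, C N₀ = ∅ := by
    by_contra hne
    push Not at hne
    have h1 : (⋂ N, C N).Nonempty := by
      refine IsCompact.nonempty_iInter_of_sequence_nonempty_isCompact_isClosed C ?_ ?_ ?_ ?_
      · intro N x hx
        refine ⟨hx.1, ?_⟩
        have hx1 : ‖x‖ ≤ s := by simpa using hx.1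
        exact (show G + 1 ≤ hf (N + 1) x from hx.2).trans (hanti x hx1 (Nat.le_succ N))
      · intro N; exact hne N
      · exact (isCompact_closedBall _ _).inter_right (isClosed_le continuous_const (hfc 0))
      · intro N
        exact isClosed_closedBall.inter (isClosed_le continuous_const (hfc N))
    obtain ⟨x, hx⟩ := h1
    rw [mem_iInter] at hx
    have hx1 : ‖x‖ ≤ s := by simpa using (hx 0).1
    have hlim : Tendsto (fun N => hf N x) atTop
        (𝓝 (∑ m ∈ Finset.range M, (if ‖L e (w m) x‖ = s then ‖g (L e (w m) x)‖ else 0))) := by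
      refine tendsto_finsetSum _ (fun m _ => ?_)
      by_cases hm : ‖L e (w m) x‖ = s
      · simp [hm, hs.ne']
      · rw [if_neg hm]
        have hlt : ‖L e (w m) x‖ / s < 1 := by
          refine lt_of_le_of_ne (hle1 m x hx1) (fun h5 => hm ?_)
          rwa [div_eq_one_iff_eq hs.ne'] at h5
        have := (tendsto_pow_atTop_nhds_zero_of_lt_one (by positivity) hlt).mul_const ‖g (L e (w m) x)‖
        simpa using this
    have h2 : G + 1 ≤ ∑ m ∈ Finset.range M, (if ‖L e (w m) x‖ = s then ‖g (L e (w m) x)‖ else 0) :=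
      ge_of_tendsto' hlim (fun N => (hx N).2)
    have h3 := limit_le h M hG hx1 g1 g2 g3
    linarith
  obtain ⟨N₀, hN₀⟩ := key
  refine ⟨N₀, fun N hN x hx => ?_⟩
  have h1 : ¬ (G + 1 ≤ hf N₀ x) := by
    intro h2
    have : x ∈ C N₀ := ⟨by simpa using hx, h2⟩
    rw [hN₀] at this
    exact this
  have h2 : hf N x ≤ G + 1 := (hanti x hx hN).trans (not_le.1 h1).le
  have h3 : ∑ m ∈ Finset.range M, ‖L e (w m) x‖ ^ N * ‖g (L e (w m) x)‖ = s ^ N * hf N x := by
    simp only [hf]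
    rw [Finset.mul_sum]
    refine Finset.sum_congr rfl (fun m _ => ?_)
    rw [div_pow]
    field_simp
  rw [h3]
  gcongr

/-- unit vectors orthogonal to the first coordinate vector -/
noncomputable def dir (h1 : 1 < n) (h2 : 2 < n) (m : ℕ) : EuclideanSpace ℝ (Fin n) :=
  (1 / Real.sqrt (1 + (m : ℝ) ^ 2)) • (EuclideanSpace.single (⟨1, h1⟩ : Fin n) (1 : ℝ)
    + (m : ℝ) • EuclideanSpace.single (⟨2, h2⟩ : Fin n) (1 : ℝ))

theorem fam (h0 : 0 < n) (h1 : 1 < n) (h2 : 2 < n) :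
    Fam (EuclideanSpace.single (⟨0, h0⟩ : Fin n) (1 : ℝ)) (dir h1 h2) where
  ee := by simp
  ww := by
    intro m
    have hp : (0 : ℝ) < 1 + (m : ℝ) ^ 2 := by positivity
    simp only [dir, inner_smul_left, inner_smul_right, inner_add_left, inner_add_right,
      EuclideanSpace.inner_single_left, PiLp.single_apply, Fin.mk.injEq]
    simp
    have := Real.mul_self_sqrt hp.le
    field_simp
    nlinarith
  ew := by
    intro m
    simp only [dir, inner_smul_left, inner_smul_right, inner_add_left, inner_add_right,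
      EuclideanSpace.inner_single_left, PiLp.single_apply, Fin.mk.injEq]
    simp
  par := by
    intro m m' hm a b hab
    have e1 := congrArg (fun v : EuclideanSpace ℝ (Fin n) => v ⟨1, h1⟩) hab
    have e2 := congrArg (fun v : EuclideanSpace ℝ (Fin n) => v ⟨2, h2⟩) hab
    simp only [dir, PiLp.smul_apply, PiLp.add_apply, PiLp.single_apply, Fin.mk.injEq, smul_eq_mul] at e1 e2
    have hp : (0 : ℝ) < Real.sqrt (1 + (m : ℝ) ^ 2) := Real.sqrt_pos.2 (by positivity)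
    simp at e1 e2
    have h3 : a * (Real.sqrt (1 + (m : ℝ) ^ 2))⁻¹ * ((m : ℝ) - m') = 0 := by
      linear_combination e2 - (m' : ℝ) * e1
    have h4 : ((m : ℝ) - m') ≠ 0 := sub_ne_zero.2 (by exact_mod_cast hm)
    have h5 := (mul_eq_zero.1 h3).resolve_right h4
    exact (mul_eq_zero.1 h5).resolve_right (by positivity)

theorem supNorm_smul (u : EuclideanSpace ℝ (Fin n) → ℂ) {c : ℝ} (hc : 0 ≤ c) (s : ℝ) :
    supNorm ((c : ℂ) • u) s = c * supNorm u s := by
  unfold supNorm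
  rw [← smul_eq_mul, ← Real.sSup_smul_of_nonneg hc]
  congr 1
  ext y
  simp only [mem_image, mem_smul_set, Pi.smul_apply, smul_eq_mul, norm_mul, Complex.norm_real,
    Real.norm_eq_abs, abs_of_nonneg hc]
  constructor
  · rintro ⟨x, hx, rfl⟩; exact ⟨_, ⟨x, hx, rfl⟩, rfl⟩
  · rintro ⟨_, ⟨x, hx, rfl⟩, rfl⟩; exact ⟨x, hx, rfl⟩

theorem supNorm_le {u : EuclideanSpace ℝ (Fin n) → ℂ} {s C : ℝ} (hs : 0 < s)
    (h : ∀ x, ‖x‖ ≤ s → ‖u x‖ ≤ C) : supNorm u s ≤ C := by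
  refine csSup_le ⟨_, ⟨0, mem_ball_self hs, rfl⟩⟩ ?_
  rintro _ ⟨x, hx, rfl⟩
  exact h x (by simpa using (mem_ball_zero_iff.1 hx).le)

theorem le_supNorm {u : EuclideanSpace ℝ (Fin n) → ℂ} {s C : ℝ} (hs : 0 < s) (hu : Continuous u)
    (h : ∀ x, ‖x‖ ≤ s → ‖u x‖ ≤ C) {x : EuclideanSpace ℝ (Fin n)} (hx : ‖x‖ ≤ s) :
    ‖u x‖ ≤ supNorm u s := by
  have hb : BddAbove ((fun x => ‖u x‖) '' ball 0 s) := by
    refine ⟨C, ?_⟩
    rintro _ ⟨x, hx, rfl⟩
    exact h x (by simpa using (mem_ball_zero_iff.1 hx).le)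
  have hcl : IsClosed {x | ‖u x‖ ≤ supNorm u s} := isClosed_le (by fun_prop) continuous_const
  have hsub : closure (ball (0 : EuclideanSpace ℝ (Fin n)) s) ⊆ {x | ‖u x‖ ≤ supNorm u s} := by
    refine closure_minimal (fun y hy => ?_) hcl
    exact le_csSup hb ⟨y, hy, rfl⟩
  rw [closure_ball _ hs.ne'] at hsub
  exact hsub (by simpa using hx)

theorem no_constant (hn : 3 ≤ n) {ρ r : ℝ} (hρ : 0 < ρ) (hρr : ρ < r) (hr : r < 1) :
    ¬ HasFiniteConstant n ρ r := by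
  rintro ⟨K, hK⟩
  have h0 : 0 < n := by omega
  have h1 : 1 < n := by omega
  have h2 : 2 < n := by omega
  set e : EuclideanSpace ℝ (Fin n) := EuclideanSpace.single (⟨0, h0⟩ : Fin n) (1 : ℝ) with he
  set w := dir h1 h2 with hw
  have hF : Fam e w := fam h0 h1 h2
  have hr0 : 0 < r := hρ.trans hρr
  have hρ1 : ρ < 1 := hρr.trans hr
  set β : ℝ := Real.log r / Real.log ρ with hβ
  have hlρ : Real.log ρ < 0 := Real.log_neg hρ hρ1
  have hlr : Real.log r < 0 := Real.log_neg hr0 hr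
  have hlt : Real.log ρ < Real.log r := Real.log_lt_log hρ hρr
  have hβ0 : 0 < β := div_pos_of_neg_of_neg hlr hlρ
  have hβ1 : β < 1 := by
    rw [hβ, div_lt_one_of_neg hlρ]; exact hlt
  have hρβ : ρ ^ β = r := by
    rw [Real.rpow_def_of_pos hρ, hβ, mul_div_cancel₀ _ hlρ.ne, Real.exp_log hr0]
  let g : ℂ → ℂ := fun z => (z ^ 2 - 1) * (z ^ 2 - (ρ : ℂ) ^ 2)
  have gc : Continuous g := by fun_prop
  have gd : Differentiable ℂ g := by fun_prop
  have g1 : g ((1 : ℝ) : ℂ) = 0 := by simp [g]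
  have g1' : g (-((1 : ℝ) : ℂ)) = 0 := by simp [g]
  have g2 : g (ρ : ℂ) = 0 := by simp [g]
  have g2' : g (-(ρ : ℂ)) = 0 := by simp [g]
  have g3 : ∀ z, ‖z‖ ≤ 1 → ‖g z‖ ≤ 4 := by
    intro z hz
    have a1 : ‖z ^ 2 - 1‖ ≤ 2 := by
      calc ‖z ^ 2 - 1‖ ≤ ‖z ^ 2‖ + ‖(1 : ℂ)‖ := norm_sub_le _ _
        _ ≤ 2 := by rw [norm_pow, norm_one]; nlinarith [norm_nonneg z]
    have a2 : ‖z ^ 2 - (ρ : ℂ) ^ 2‖ ≤ 2 := by
      calc ‖z ^ 2 - (ρ : ℂ) ^ 2‖ ≤ ‖z ^ 2‖ + ‖(ρ : ℂ) ^ 2‖ := norm_sub_le _ _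
        _ ≤ 2 := by
          rw [norm_pow, norm_pow, Complex.norm_real, Real.norm_eq_abs, abs_of_pos hρ]
          nlinarith [norm_nonneg z]
    calc ‖g z‖ = ‖z ^ 2 - 1‖ * ‖z ^ 2 - (ρ : ℂ) ^ 2‖ := norm_mul _ _
      _ ≤ 2 * 2 := by gcongr
      _ = 4 := by norm_num
  have g4 : ∀ z, ‖z‖ ≤ ρ → ‖g z‖ ≤ 4 := fun z hz => g3 z (hz.trans hρ1.le)
  have hgr : 0 < ‖g (r : ℂ)‖ := by
    have : g (r : ℂ) = (((r ^ 2 - 1) * (r ^ 2 - ρ ^ 2) : ℝ) : ℂ) := by simp [g]
    rw [this, Complex.norm_real, Real.norm_eq_abs]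
    refine abs_pos.2 (mul_ne_zero ?_ ?_)
    · nlinarith
    · nlinarith
  obtain ⟨M, hM⟩ := exists_nat_gt (5 * max K 0 / ‖g (r : ℂ)‖)
  have hM' : 5 * max K 0 < M * ‖g (r : ℂ)‖ := by
    rwa [div_lt_iff₀ hgr] at hM
  obtain ⟨N₁, hN₁⟩ := unif hF M one_pos (by norm_num : (0 : ℝ) ≤ 4) gc g1 g1' g3
  obtain ⟨N₂, hN₂⟩ := unif hF M hρ (by norm_num : (0 : ℝ) ≤ 4) gc g2 g2' g4
  set N := max N₁ N₂ with hN
  let u : EuclideanSpace ℝ (Fin n) → ℂ := fun x =>
    ∑ m ∈ Finset.range M, (L e (w m) x) ^ N * g (L e (w m) x)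
  have huc : Continuous u := by
    refine continuous_finsetSum _ (fun m _ => ?_)
    have := (L e (w m)).continuous
    fun_prop
  have hub : ∀ x, ‖u x‖ ≤ ∑ m ∈ Finset.range M, ‖L e (w m) x‖ ^ N * ‖g (L e (w m) x)‖ := by
    intro x
    refine (norm_sum_le _ _).trans (Finset.sum_le_sum fun m _ => ?_)
    rw [norm_mul, norm_pow]
  have hu1 : ∀ x, ‖x‖ ≤ 1 → ‖u x‖ ≤ 5 := by
    intro x hx
    refine (hub x).trans ((hN₁ N (le_max_left _ _) x hx).trans ?_)
    rw [one_pow]; norm_num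
  have hu2 : ∀ x, ‖x‖ ≤ ρ → ‖u x‖ ≤ ρ ^ N * 5 := by
    intro x hx
    refine (hub x).trans ((hN₂ N (le_max_right _ _) x hx).trans ?_)
    norm_num
  have huh : ∀ x, HarmonicAt u x := by
    intro x
    have key : ∀ M' : ℕ, HarmonicAt (fun x => ∑ m ∈ Finset.range M', (L e (w m) x) ^ N * g (L e (w m) x)) x := by
      intro M'
      induction M' with
      | zero => simp
      | succ k ih =>
        simp only [Finset.sum_range_succ]
        have h3 := harmonic_comp (fun z => z ^ N * g z) (by fun_prop) e (w k) hF.ee (hF.ww k) (hF.ew k) x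
        exact ih.add h3
    exact key M
  have hre : ‖r • e‖ = r := by
    rw [norm_smul, Real.norm_eq_abs, abs_of_pos hr0, he]
    simp
  have hval : u (r • e) = (M : ℂ) * ((r : ℂ) ^ N * g (r : ℂ)) := by
    have h3 : ∀ m, L e (w m) (r • e) = (r : ℂ) := by
      intro m
      rw [map_smul, L_apply, hF.ee, real_inner_comm, hF.ew m]
      simp
    simp only [u, h3]
    simp
  have hval' : ‖u (r • e)‖ = M * (r ^ N * ‖g (r : ℂ)‖) := by
    rw [hval, norm_mul, norm_mul, norm_pow, Complex.norm_real, Real.norm_eq_abs, abs_of_pos hr0]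
    simp
  have hMpos : (0 : ℝ) < M := by
    have : 0 ≤ 5 * max K 0 := by positivity
    by_contra hcon
    push Not at hcon
    nlinarith
  have hur : M * (r ^ N * ‖g (r : ℂ)‖) ≤ supNorm u r := by
    rw [← hval']
    exact le_supNorm hr0 huc (fun x hx => hu1 x (hx.trans hr.le)) hre.le
  set S := supNorm u 1 with hS
  have hS5 : S ≤ 5 := supNorm_le one_pos hu1
  have hSpos : 0 < S := by
    have h3 : ‖u (r • e)‖ ≤ S := le_supNorm one_pos huc hu1 (hre.le.trans hr.le)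
    rw [hval'] at h3
    have : 0 < M * (r ^ N * ‖g (r : ℂ)‖) := by positivity
    linarith
  have hmem : (((1 / S : ℝ) : ℂ) • u) ∈ ClassH n := by
    refine ⟨?_, ?_⟩
    · intro x _
      have h3 := (huh x).const_smul (c := (1 / S : ℝ))
      have h4 : (((1 / S : ℝ) : ℂ) • u) = ((1 / S : ℝ) • u) := by
        funext y; simp
      rw [h4]; exact h3
    · have hb : BddAbove ((fun x => ‖(((1 / S : ℝ) : ℂ) • u) x‖) '' ball 0 1) := by
        refine ⟨(1 / S) * 5, ?_⟩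
        rintro _ ⟨x, hx, rfl⟩
        simp only [Pi.smul_apply, norm_smul, Complex.norm_real, Real.norm_eq_abs, abs_of_pos (one_div_pos.2 hSpos)]
        gcongr
        exact hu1 x (by simpa using (mem_ball_zero_iff.1 hx).le)
      have h3 := isLUB_csSup (s := ((fun x => ‖(((1 / S : ℝ) : ℂ) • u) x‖) '' ball 0 1)) ⟨_, ⟨0, mem_ball_self one_pos, rfl⟩⟩ hb
      have h4 : sSup ((fun x => ‖(((1 / S : ℝ) : ℂ) • u) x‖) '' ball 0 1) = 1 := by
        have h5 := supNorm_smul u (one_div_pos.2 hSpos).le 1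
        unfold supNorm at h5
        rw [h5]
        change 1 / S * S = 1
        field_simp
      rwa [h4] at h3
  have hfin := hK _ hmem
  rw [supNorm_smul u (one_div_pos.2 hSpos).le, supNorm_smul u (one_div_pos.2 hSpos).le] at hfin
  have hρu : supNorm u ρ ≤ ρ ^ N * 5 := supNorm_le hρ hu2
  have hρu0 : 0 ≤ supNorm u ρ := (norm_nonneg (u 0)).trans (le_supNorm hρ huc hu2 (by simpa using hρ.le))
  have h6 : K * (1 / S * supNorm u ρ) ^ β ≤ max K 0 * (1 / S * (ρ ^ N * 5)) ^ β := by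
    have : 0 ≤ (1 / S * supNorm u ρ) ^ β := by positivity
    calc K * (1 / S * supNorm u ρ) ^ β ≤ max K 0 * (1 / S * supNorm u ρ) ^ β := by
          gcongr; exact le_max_left _ _
      _ ≤ _ := by gcongr
  have h7 : (1 / S * (ρ ^ N * 5)) ^ β = S ^ (-β) * (r ^ N * 5 ^ β) := by
    rw [Real.mul_rpow (by positivity) (by positivity), Real.mul_rpow (by positivity) (by norm_num),
      ← Real.rpow_natCast ρ N, ← Real.rpow_mul hρ.le, mul_comm (N : ℝ) β, Real.rpow_mul hρ.le, hρβ,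
      Real.rpow_natCast, one_div, Real.inv_rpow hSpos.le, Real.rpow_neg hSpos.le]
  have h8 : 1 / S * (M * (r ^ N * ‖g (r : ℂ)‖)) ≤ max K 0 * (S ^ (-β) * (r ^ N * 5 ^ β)) := by
    rw [← h7]
    refine le_trans ?_ (hfin.trans h6)
    gcongr
  have h9 : M * (r ^ N * ‖g (r : ℂ)‖) ≤ max K 0 * (5 * r ^ N) := by
    have h10 : S * S ^ (-β) * 5 ^ β ≤ 5 := by
      have h11 : S * S ^ (-β) = S ^ (1 - β) := by
        rw [sub_eq_add_neg, Real.rpow_add hSpos, Real.rpow_one]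
      rw [h11]
      calc S ^ (1 - β) * 5 ^ β ≤ 5 ^ (1 - β) * 5 ^ β := by
            gcongr
        _ = 5 := by
            rw [← Real.rpow_add (by norm_num)]; norm_num
    calc M * (r ^ N * ‖g (r : ℂ)‖) = S * (1 / S * (M * (r ^ N * ‖g (r : ℂ)‖))) := by
          field_simp
      _ ≤ S * (max K 0 * (S ^ (-β) * (r ^ N * 5 ^ β))) := by gcongr
      _ = max K 0 * ((S * S ^ (-β) * 5 ^ β) * r ^ N) := by ring
      _ ≤ max K 0 * (5 * r ^ N) := by gcongr
  have hrN : 0 < r ^ N := by positivity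
  nlinarith

end high

/-! ### Dimension two -/

theorem harmonicAt_comp_iso {E₁ E₂ F : Type*} [NormedAddCommGroup E₁] [InnerProductSpace ℝ E₁]
    [FiniteDimensional ℝ E₁] [NormedAddCommGroup E₂] [InnerProductSpace ℝ E₂]
    [FiniteDimensional ℝ E₂] [NormedAddCommGroup F] [NormedSpace ℝ F] (ι : E₁ ≃ₗᵢ[ℝ] E₂)
    {u : E₂ → F} {z : E₁} (h : HarmonicAt u (ι z)) : HarmonicAt (u ∘ ι) z := by
  have hlap : ∀ w, Laplacian.laplacian (u ∘ ι) w = Laplacian.laplacian u (ι w) := by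
    intro w
    rw [laplacian_eq_iteratedFDeriv_orthonormalBasis _ (stdOrthonormalBasis ℝ E₁),
      laplacian_eq_iteratedFDeriv_orthonormalBasis _ ((stdOrthonormalBasis ℝ E₁).map ι)]
    simp only []
    refine Finset.sum_congr rfl (fun i _ => ?_)
    have h1 := ContinuousLinearEquiv.iteratedFDerivWithin_comp_right (𝕜 := ℝ) ι.toContinuousLinearEquiv u
      (uniqueDiffOn_univ) (x := w) (mem_univ _) 2
    simp only [preimage_univ, iteratedFDerivWithin_univ] at h1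
    have h2 : iteratedFDeriv ℝ 2 (u ∘ ι) w = iteratedFDeriv ℝ 2 (u ∘ (ι.toContinuousLinearEquiv)) w := rfl
    rw [h2, h1]
    simp only [ContinuousMultilinearMap.compContinuousLinearMap_apply]
    congr 1
    funext j
    fin_cases j <;> simp
  refine ⟨?_, ?_⟩
  · exact h.1.comp z ι.contDiff.contDiffAt
  · have h1 : Tendsto ι (𝓝 z) (𝓝 (ι z)) := ι.continuous.continuousAt
    filter_upwards [h1.eventually h.2] with w hw
    rw [hlap w, hw]; rfl

/-- orthogonality -/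
theorem int_exp (j : ℤ) : ∫ θ in (0 : ℝ)..(2 * Real.pi), Complex.exp (Complex.I * j * θ)
    = if j = 0 then 2 * Real.pi else 0 := by
  split_ifs with h
  · subst h; simp
  · have hj : (j : ℂ) ≠ 0 := by exact_mod_cast h
    rw [integral_exp_mul_complex (by simpa using hj)]
    have : Complex.exp (Complex.I * j * ((2 * Real.pi : ℝ) : ℂ)) = 1 := by
      rw [Complex.exp_eq_one_iff]
      exact ⟨j, by push_cast; ring⟩
    rw [this]; simp

theorem coef (A B : ℕ → ℂ) (V : ℝ → ℂ)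
    (hs : Summable fun k => ‖A k‖ + ‖B k‖)
    (hV : ∀ θ : ℝ, HasSum (fun k : ℕ => A k * Complex.exp (Complex.I * (k : ℤ) * θ)
      + B k * Complex.exp (Complex.I * (-(k : ℤ) : ℤ) * θ)) (V θ)) {ε : ℝ} (hε : ∀ θ, ‖V θ‖ ≤ ε) (m : ℤ) :
    ‖∑' k : ℕ, ((if (k : ℤ) = m then A k else 0) + (if -(k : ℤ) = m then B k else 0))‖ ≤ ε := by
  have h1 : HasSum (fun k : ℕ => ∫ θ in (0 : ℝ)..(2 * Real.pi), (A k * Complex.exp (Complex.I * (k : ℤ) * θ)
      + B k * Complex.exp (Complex.I * (-(k : ℤ) : ℤ) * θ)) * Complex.exp (Complex.I * (-m : ℤ) * θ))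
      (∫ θ in (0 : ℝ)..(2 * Real.pi), V θ * Complex.exp (Complex.I * (-m : ℤ) * θ)) := by
    refine intervalIntegral.hasSum_integral_of_dominated_convergence (fun k _ => ‖A k‖ + ‖B k‖) ?_ ?_ ?_ ?_ ?_
    · intro k
      exact (Continuous.aestronglyMeasurable (by fun_prop))
    · intro k
      refine Filter.Eventually.of_forall (fun θ _ => ?_)
      have e1 : ∀ j : ℤ, ‖Complex.exp (Complex.I * j * θ)‖ = 1 := by
        intro j
        rw [show Complex.I * (j : ℂ) * (θ : ℂ) = ((j * θ : ℝ) : ℂ) * Complex.I by push_cast; ring]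
        exact Complex.norm_exp_ofReal_mul_I _
      rw [norm_mul, e1, mul_one]
      refine (norm_add_le _ _).trans ?_
      rw [norm_mul, norm_mul, e1, e1, mul_one, mul_one]
    · exact Filter.Eventually.of_forall (fun θ _ => hs)
    · exact intervalIntegrable_const
    · exact Filter.Eventually.of_forall (fun θ _ => (hV θ).mul_right _)
  have h2 : ∀ k : ℕ, ∫ θ in (0 : ℝ)..(2 * Real.pi), (A k * Complex.exp (Complex.I * (k : ℤ) * θ)
      + B k * Complex.exp (Complex.I * (-(k : ℤ) : ℤ) * θ)) * Complex.exp (Complex.I * (-m : ℤ) * θ)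
      = 2 * Real.pi * ((if (k : ℤ) = m then A k else 0) + (if -(k : ℤ) = m then B k else 0)) := by
    intro k
    have e : ∀ θ : ℝ, (A k * Complex.exp (Complex.I * (k : ℤ) * θ)
      + B k * Complex.exp (Complex.I * (-(k : ℤ) : ℤ) * θ)) * Complex.exp (Complex.I * (-m : ℤ) * θ)
      = A k * Complex.exp (Complex.I * ((k - m : ℤ)) * θ) + B k * Complex.exp (Complex.I * ((-k - m : ℤ)) * θ) := by
      intro θ
      have e1 : Complex.exp (Complex.I * (k : ℤ) * θ) * Complex.exp (Complex.I * (-m : ℤ) * θ)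
          = Complex.exp (Complex.I * ((k - m : ℤ)) * θ) := by
        rw [← Complex.exp_add]; congr 1; push_cast; ring
      have e2 : Complex.exp (Complex.I * (-(k : ℤ) : ℤ) * θ) * Complex.exp (Complex.I * (-m : ℤ) * θ)
          = Complex.exp (Complex.I * ((-k - m : ℤ)) * θ) := by
        rw [← Complex.exp_add]; congr 1; push_cast; ring
      rw [← e1, ← e2]; ring
    simp only [e]
    rw [intervalIntegral.integral_add (Continuous.intervalIntegrable (by fun_prop) _ _)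
      (Continuous.intervalIntegrable (by fun_prop) _ _), intervalIntegral.integral_const_mul,
      intervalIntegral.integral_const_mul, int_exp, int_exp]
    have c1 : ((k : ℤ) - m = 0) ↔ ((k : ℤ) = m) := sub_eq_zero
    have c2 : (-(k : ℤ) - m = 0) ↔ (-(k : ℤ) = m) := sub_eq_zero
    simp only [c1, c2]
    split_ifs <;> (push_cast; ring)
  simp only [h2] at h1
  have h3 := h1.tsum_eq
  rw [tsum_mul_left] at h3
  have h4 : ‖∫ θ in (0 : ℝ)..(2 * Real.pi), V θ * Complex.exp (Complex.I * (-m : ℤ) * θ)‖ ≤ ε * |2 * Real.pi - 0| := by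
    refine intervalIntegral.norm_integral_le_of_norm_le_const (fun θ _ => ?_)
    rw [norm_mul, show Complex.I * ((-m : ℤ) : ℂ) * (θ : ℂ) = (((-m : ℤ) * θ : ℝ) : ℂ) * Complex.I by push_cast; ring,
      Complex.norm_exp_ofReal_mul_I, mul_one]
    exact hε θ
  rw [← h3, norm_mul, sub_zero, abs_of_pos (by positivity : (0 : ℝ) < 2 * Real.pi)] at h4
  have h5 : ‖(2 * Real.pi : ℂ)‖ = 2 * Real.pi := by
    rw [show (2 * Real.pi : ℂ) = ((2 * Real.pi : ℝ) : ℂ) by push_cast; ring, Complex.norm_real, Real.norm_eq_abs,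
      abs_of_pos (by positivity)]
  rw [h5, mul_comm ε] at h4
  exact le_of_mul_le_mul_left h4 (by positivity)

theorem numeric {ρ r ε : ℝ} (hρ : 0 < ρ) (hρr : ρ < r) (hr : r < 1) (hε : 0 < ε) (hε1 : ε ≤ 1) :
    Summable (fun k : ℕ => r ^ k * min 1 (ε / ρ ^ k)) ∧
    ∑' k : ℕ, r ^ k * min 1 (ε / ρ ^ k) ≤ (1 / (1 - ρ / r) + 1 / (1 - r)) * ε ^ (Real.log r / Real.log ρ) := by
  have hr0 : 0 < r := hρ.trans hρr
  have hρ1 : ρ < 1 := hρr.trans hr
  set β : ℝ := Real.log r / Real.log ρ with hβ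
  have hlρ : Real.log ρ < 0 := Real.log_neg hρ hρ1
  have hlr : Real.log r < 0 := Real.log_neg hr0 hr
  have hlt : Real.log ρ < Real.log r := Real.log_lt_log hρ hρr
  have hβ0 : 0 < β := div_pos_of_neg_of_neg hlr hlρ
  have hβ1 : β < 1 := by
    rw [hβ, div_lt_one_of_neg hlρ]; exact hlt
  have hρβ : ρ ^ β = r := by
    rw [Real.rpow_def_of_pos hρ, hβ, mul_div_cancel₀ _ hlρ.ne, Real.exp_log hr0]
  have hsum : Summable (fun k : ℕ => r ^ k * min 1 (ε / ρ ^ k)) := by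
    refine Summable.of_nonneg_of_le (fun k => by positivity) (fun k => ?_) (summable_geometric_of_lt_one hr0.le hr)
    exact mul_le_of_le_one_right (by positivity) (min_le_left _ _)
  refine ⟨hsum, ?_⟩
  obtain ⟨N, hN1, hN2⟩ := exists_nat_pow_near_of_lt_one hε hε1 hρ hρ1
  have hq : 0 < 1 - ρ / r := by rw [sub_pos, div_lt_one hr0]; exact hρr
  have hpow : ∀ k : ℕ, r ^ k = (ρ ^ k) ^ β := by
    intro k
    rw [← Real.rpow_natCast ρ k, ← Real.rpow_mul hρ.le, mul_comm, Real.rpow_mul hρ.le, hρβ,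
      Real.rpow_natCast]
  rw [← hsum.sum_add_tsum_nat_add (N + 1), add_mul]
  refine add_le_add ?_ ?_
  · have h1 : ∑ k ∈ Finset.range (N + 1), r ^ k * min 1 (ε / ρ ^ k)
        ≤ ∑ k ∈ Finset.range (N + 1), ε * (r / ρ) ^ k := by
      refine Finset.sum_le_sum (fun k _ => ?_)
      calc r ^ k * min 1 (ε / ρ ^ k) ≤ r ^ k * (ε / ρ ^ k) := by gcongr; exact min_le_right _ _
        _ = ε * (r / ρ) ^ k := by rw [div_pow]; ring
    refine h1.trans ?_
    have hrρ : 1 < r / ρ := by rw [one_lt_div hρ]; exact hρr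
    rw [← Finset.mul_sum, geom_sum_eq hrρ.ne']
    have h2 : ((r / ρ) ^ (N + 1) - 1) / (r / ρ - 1) ≤ (r / ρ) ^ N / (1 - ρ / r) := by
      have h3 : (r / ρ) ^ (N + 1) / (r / ρ - 1) = (r / ρ) ^ N / (1 - ρ / r) := by
        rw [pow_succ]
        have : r / ρ - 1 ≠ 0 := (sub_pos.2 hrρ).ne'
        have h5 : 1 - ρ / r = (r / ρ - 1) * (ρ / r) := by field_simp
        rw [h5]
        field_simp
      rw [← h3]
      have : 0 < r / ρ - 1 := sub_pos.2 hrρ
      gcongr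
      linarith
    have h4 : ε * (r / ρ) ^ N ≤ ε ^ β := by
      have h5 : (r / ρ) ^ N = (ρ ^ N) ^ (β - 1) := by
        rw [div_pow, hpow N, Real.rpow_sub (by positivity), Real.rpow_one]
      rw [h5]
      have h6 : (ρ ^ N) ^ (β - 1) ≤ ε ^ (β - 1) :=
        Real.rpow_le_rpow_of_nonpos hε hN2 (by linarith)
      calc ε * (ρ ^ N) ^ (β - 1) ≤ ε * ε ^ (β - 1) := by gcongr
        _ = ε ^ β := by
          nth_rewrite 1 [← Real.rpow_one ε]
          rw [← Real.rpow_add hε]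
          congr 1; ring
    calc ε * (((r / ρ) ^ (N + 1) - 1) / (r / ρ - 1)) ≤ ε * ((r / ρ) ^ N / (1 - ρ / r)) := by gcongr
      _ = (1 / (1 - ρ / r)) * (ε * (r / ρ) ^ N) := by ring
      _ ≤ _ := by gcongr
  · have h1 : ∑' k : ℕ, r ^ (k + (N + 1)) * min 1 (ε / ρ ^ (k + (N + 1))) ≤ ∑' k : ℕ, r ^ (N + 1) * r ^ k := by
      refine Summable.tsum_le_tsum (fun k => ?_) ((summable_nat_add_iff (N + 1)).2 hsum)
        ((summable_geometric_of_lt_one hr0.le hr).mul_left _)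
      calc r ^ (k + (N + 1)) * min 1 (ε / ρ ^ (k + (N + 1))) ≤ r ^ (k + (N + 1)) * 1 := by
            gcongr; exact min_le_left _ _
        _ = r ^ (N + 1) * r ^ k := by rw [mul_one, pow_add, mul_comm]
    refine h1.trans ?_
    rw [tsum_mul_left, tsum_geometric_of_lt_one hr0.le hr, hpow (N + 1)]
    have h2 : (ρ ^ (N + 1)) ^ β ≤ ε ^ β := Real.rpow_le_rpow (by positivity) hN1.le hβ0.le
    have h3 : 0 < 1 - r := by linarith
    rw [one_div, mul_comm]
    gcongr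

theorem expansion (v : ℂ → ℂ) (hv : HarmonicOnNhd v (ball 0 1)) : ∃ A B : ℕ → ℂ,
    (∀ z ∈ ball (0 : ℂ) 1, HasSum (fun k => A k * z ^ k + B k * (starRingEnd ℂ z) ^ k) (v z)) ∧
    ∀ s : ℝ, 0 ≤ s → s < 1 → Summable (fun k => ‖A k * (s : ℂ) ^ k‖ + ‖B k * (s : ℂ) ^ k‖) := by
  obtain ⟨F₁, hF₁, hv₁⟩ := (hv.comp_CLM Complex.reCLM).exists_analyticOnNhd_ball_re_eq
  obtain ⟨F₂, hF₂, hv₂⟩ := (hv.comp_CLM Complex.imCLM).exists_analyticOnNhd_ball_re_eq
  obtain ⟨a, hs₁⟩ : ∃ a : ℕ → ℂ, ∀ z ∈ ball (0 : ℂ) 1, HasSum (fun k : ℕ => a k * z ^ k) (F₁ z) := by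
    refine ⟨fun k => (k.factorial : ℂ)⁻¹ * iteratedDeriv k F₁ 0, ?_⟩
    intro z hz
    have h := Complex.hasSum_taylorSeries_on_ball hF₁.differentiableOn hz
    refine h.congr_fun ?_ |> fun h => h
    intro k
    simp only [smul_eq_mul, sub_zero]; ring
  obtain ⟨b, hs₂⟩ : ∃ b : ℕ → ℂ, ∀ z ∈ ball (0 : ℂ) 1, HasSum (fun k : ℕ => b k * z ^ k) (F₂ z) := by
    refine ⟨fun k => (k.factorial : ℂ)⁻¹ * iteratedDeriv k F₂ 0, ?_⟩
    intro z hz
    have h := Complex.hasSum_taylorSeries_on_ball hF₂.differentiableOn hz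
    refine h.congr_fun ?_ |> fun h => h
    intro k
    simp only [smul_eq_mul, sub_zero]; ring
  refine ⟨fun k => (a k + Complex.I * b k) / 2,
    fun k => (starRingEnd ℂ (a k) + Complex.I * starRingEnd ℂ (b k)) / 2, ?_, ?_⟩
  · intro z hz
    have h1 := (Complex.hasSum_re (hs₁ z hz))
    have h2 := (Complex.hasSum_re (hs₂ z hz))
    have h1' : HasSum (fun k => ((((a k * z ^ k).re : ℝ)) : ℂ)) (((F₁ z).re : ℝ) : ℂ) := Complex.hasSum_ofReal.2 h1
    have h2' : HasSum (fun k => ((((b k * z ^ k).re : ℝ)) : ℂ)) (((F₂ z).re : ℝ) : ℂ) := Complex.hasSum_ofReal.2 h2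
    have h3 := h1'.add (h2'.mul_left Complex.I)
    have e1 : (F₁ z).re = (v z).re := hv₁ hz
    have e2 : (F₂ z).re = (v z).im := hv₂ hz
    have e3 : (((F₁ z).re : ℝ) : ℂ) + Complex.I * (((F₂ z).re : ℝ) : ℂ) = v z := by
      rw [e1, e2, mul_comm]; exact Complex.re_add_im (v z)
    rw [e3] at h3
    refine h3.congr_fun ?_ |> fun h => h
    intro k
    rw [Complex.re_eq_add_conj, Complex.re_eq_add_conj]
    simp only [map_mul, map_pow]
    ring
  · intro s hs0 hs1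
    have hz : (s : ℂ) ∈ ball (0 : ℂ) 1 := by
      rw [mem_ball_zero_iff, Complex.norm_real, Real.norm_eq_abs, abs_of_nonneg hs0]; exact hs1
    have h1 := (hs₁ _ hz).summable.norm
    have h2 := (hs₂ _ hz).summable.norm
    refine Summable.of_nonneg_of_le (fun k => by positivity) (fun k => ?_) (h1.add h2)
    simp only [norm_mul, norm_div]
    have i1 : ‖a k + Complex.I * b k‖ ≤ ‖a k‖ + ‖b k‖ := by
      refine (norm_add_le _ _).trans ?_
      rw [norm_mul, Complex.norm_I, one_mul]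
    have i2 : ‖(starRingEnd ℂ) (a k) + Complex.I * (starRingEnd ℂ) (b k)‖ ≤ ‖a k‖ + ‖b k‖ := by
      refine (norm_add_le _ _).trans ?_
      rw [norm_mul, Complex.norm_I, one_mul, RCLike.norm_conj, RCLike.norm_conj]
    have i3 : (0 : ℝ) ≤ ‖(s : ℂ) ^ k‖ := norm_nonneg _
    have i4 : ‖(2 : ℂ)‖ = 2 := by simp
    rw [i4]
    nlinarith

theorem coef_bound {A B : ℕ → ℂ} {v : ℂ → ℂ}
    (h1 : ∀ z ∈ ball (0 : ℂ) 1, HasSum (fun k => A k * z ^ k + B k * (starRingEnd ℂ z) ^ k) (v z))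
    (h2 : ∀ s : ℝ, 0 ≤ s → s < 1 → Summable (fun k => ‖A k * (s : ℂ) ^ k‖ + ‖B k * (s : ℂ) ^ k‖))
    {R ε : ℝ} (hR : 0 < R) (hR1 : R ≤ 1) (hε : ∀ z ∈ ball (0 : ℂ) R, ‖v z‖ ≤ ε) (k : ℕ) (z : ℂ) :
    ‖A k * z ^ k + B k * (starRingEnd ℂ z) ^ k‖ * R ^ k ≤ 2 * ε * ‖z‖ ^ k := by
  have hε0 : 0 ≤ ε := (norm_nonneg _).trans (hε 0 (mem_ball_self hR))
  have key : ∀ s : ℝ, 0 < s → s < R → ∀ m : ℤ,
      ‖∑' k : ℕ, ((if (k : ℤ) = m then A k * (s : ℂ) ^ k else 0) + (if -(k : ℤ) = m then B k * (s : ℂ) ^ k else 0))‖ ≤ ε := by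
    intro s hs0 hsR m
    refine coef (fun k => A k * (s : ℂ) ^ k) (fun k => B k * (s : ℂ) ^ k)
      (fun θ => v (s * Complex.exp (Complex.I * θ))) (h2 s hs0.le (hsR.trans_le hR1)) ?_ ?_ m
    · intro θ
      have hn : ‖(s : ℂ) * Complex.exp (Complex.I * θ)‖ = s := by
        rw [norm_mul, mul_comm Complex.I, Complex.norm_exp_ofReal_mul_I, mul_one, Complex.norm_real,
          Real.norm_eq_abs, abs_of_pos hs0]
      have h3 := h1 (s * Complex.exp (Complex.I * θ)) (by rw [mem_ball_zero_iff, hn]; exact hsR.trans_le hR1)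
      refine h3.congr_fun ?_ |> fun h => h
      intro k
      have e1 : Complex.exp (Complex.I * (k : ℤ) * θ) = Complex.exp (Complex.I * θ) ^ k := by
        rw [← Complex.exp_nat_mul]; congr 1; push_cast; ring
      have e2 : Complex.exp (Complex.I * (-(k : ℤ) : ℤ) * θ) = (starRingEnd ℂ (Complex.exp (Complex.I * θ))) ^ k := by
        rw [← Complex.exp_conj, ← Complex.exp_nat_mul]; congr 1
        simp only [map_mul, Complex.conj_I, Complex.conj_ofReal]
        push_cast; ring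
      rw [e1, e2, map_mul, Complex.conj_ofReal, mul_pow, mul_pow]
      ring
    · intro θ
      refine hε _ ?_
      rw [mem_ball_zero_iff, norm_mul, mul_comm Complex.I, Complex.norm_exp_ofReal_mul_I, mul_one, Complex.norm_real,
          Real.norm_eq_abs, abs_of_pos hs0]
      exact hsR
  rcases Nat.eq_zero_or_pos k with rfl | hk
  · simp only [pow_zero, mul_one]
    have h3 := key (R / 2) (by linarith) (by linarith) 0
    rw [tsum_eq_single 0] at h3
    · simp at h3; linarith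
    · intro j hj
      have : ¬ ((j : ℤ) = 0) := by exact_mod_cast hj
      simp [hj]
  · have hk' : (k : ℤ) ≠ 0 := by exact_mod_cast hk.ne'
    have hk0 : 0 < (k : ℤ) := by exact_mod_cast hk
    have h3 : ∀ s : ℝ, 0 < s → s < R → (‖A k‖ + ‖B k‖) * s ^ k ≤ 2 * ε := by
      intro s hs0 hsR
      have i1 := key s hs0 hsR k
      have i2 := key s hs0 hsR (-k)
      rw [tsum_eq_single k] at i1
      · rw [tsum_eq_single k] at i2
        · have c1 : ¬ (-(k : ℤ) = k) := by omega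
          have c2 : ¬ ((k : ℤ) = -k) := by omega
          simp only [if_true, if_neg c1, add_zero] at i1
          simp only [if_true, if_neg c2, zero_add] at i2
          rw [norm_mul, norm_pow, Complex.norm_real, Real.norm_eq_abs, abs_of_pos hs0] at i1 i2
          linarith
        · intro j hj
          have c1 : ¬ ((j : ℤ) = -k) := by omega
          have c2 : ¬ (-(j : ℤ) = -k) := by
            intro h; apply hj; have : (j : ℤ) = k := by linarith
            exact_mod_cast this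
          simp only [if_neg c1, if_neg c2, add_zero]
      · intro j hj
        have c1 : ¬ ((j : ℤ) = k) := by exact_mod_cast hj
        have c2 : ¬ (-(j : ℤ) = k) := by omega
        simp only [if_neg c1, if_neg c2, add_zero]
    have h4 : (‖A k‖ + ‖B k‖) * R ^ k ≤ 2 * ε := by
      have ht : Tendsto (fun s : ℝ => (‖A k‖ + ‖B k‖) * s ^ k) (𝓝[<] R) (𝓝 ((‖A k‖ + ‖B k‖) * R ^ k)) := by
        have : Continuous (fun s : ℝ => (‖A k‖ + ‖B k‖) * s ^ k) := by fun_prop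
        exact (this.tendsto R).mono_left nhdsWithin_le_nhds
      refine le_of_tendsto ht ?_
      filter_upwards [Ioo_mem_nhdsLT hR] with s hs
      exact h3 s hs.1 hs.2
    calc ‖A k * z ^ k + B k * (starRingEnd ℂ z) ^ k‖ * R ^ k
        ≤ ((‖A k‖ + ‖B k‖) * ‖z‖ ^ k) * R ^ k := by
          gcongr
          refine (norm_add_le _ _).trans ?_
          rw [norm_mul, norm_mul, norm_pow, norm_pow, RCLike.norm_conj]
          exact le_of_eq (by ring)
      _ = ((‖A k‖ + ‖B k‖) * R ^ k) * ‖z‖ ^ k := by ring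
      _ ≤ 2 * ε * ‖z‖ ^ k := by gcongr

theorem plane {v : ℂ → ℂ} (hv : HarmonicOnNhd v (ball 0 1)) {ρ r ε : ℝ} (hρ : 0 < ρ) (hρr : ρ < r)
    (hr : r < 1) (hv1 : ∀ z ∈ ball (0 : ℂ) 1, ‖v z‖ ≤ 1) (hε0 : 0 ≤ ε) (hε1 : ε ≤ 1)
    (hvρ : ∀ z ∈ ball (0 : ℂ) ρ, ‖v z‖ ≤ ε) {z : ℂ} (hz : z ∈ ball (0 : ℂ) r) :
    ‖v z‖ ≤ 2 * (1 / (1 - ρ / r) + 1 / (1 - r)) * ε ^ (Real.log r / Real.log ρ) := by
  obtain ⟨A, B, h1, h2⟩ := expansion v hv
  have hr0 : 0 < r := hρ.trans hρr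
  have hzr : ‖z‖ < r := mem_ball_zero_iff.1 hz
  have hρ1 : ρ < 1 := hρr.trans hr
  have hz1 : z ∈ ball (0 : ℂ) 1 := mem_ball_zero_iff.2 (hzr.trans hr)
  have b1 := fun k => coef_bound h1 h2 one_pos le_rfl hv1 k z
  have b2 := fun k => coef_bound h1 h2 hρ hρ1.le hvρ k z
  have b3 : ∀ k, ‖A k * z ^ k + B k * (starRingEnd ℂ z) ^ k‖ ≤ 2 * (r ^ k * min 1 (ε / ρ ^ k)) := by
    intro k
    have i1 : ‖A k * z ^ k + B k * (starRingEnd ℂ z) ^ k‖ ≤ 2 * ‖z‖ ^ k := by
      have := b1 k; simpa using this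
    have i2 : ‖A k * z ^ k + B k * (starRingEnd ℂ z) ^ k‖ ≤ 2 * (ε / ρ ^ k) * ‖z‖ ^ k := by
      have := b2 k
      have hp : 0 < ρ ^ k := by positivity
      rw [← le_div_iff₀ hp] at this
      refine this.trans (le_of_eq ?_)
      ring
    have i3 : ‖A k * z ^ k + B k * (starRingEnd ℂ z) ^ k‖ ≤ 2 * min 1 (ε / ρ ^ k) * ‖z‖ ^ k := by
      rcases le_total 1 (ε / ρ ^ k) with h | h
      · rw [min_eq_left h]; linarith
      · rw [min_eq_right h]; exact i2
    refine i3.trans ?_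
    have i4 : 0 ≤ min 1 (ε / ρ ^ k) := le_min zero_le_one (by positivity)
    calc 2 * min 1 (ε / ρ ^ k) * ‖z‖ ^ k ≤ 2 * min 1 (ε / ρ ^ k) * r ^ k := by gcongr
      _ = _ := by ring
  rcases hε0.eq_or_lt with h0 | hpos
  · have hz0 : v z = 0 := by
      have h3 : ∀ k, A k * z ^ k + B k * (starRingEnd ℂ z) ^ k = 0 := by
        intro k
        have := b3 k
        rw [← h0] at this
        simp at this
        exact this
      have h4 := h1 z hz1
      simp only [h3] at h4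
      exact (h4.unique hasSum_zero)
    rw [hz0, norm_zero]
    have : 0 < 1 - ρ / r := by rw [sub_pos, div_lt_one hr0]; exact hρr
    have : 0 < 1 - r := by linarith
    positivity
  · obtain ⟨n1, n2⟩ := numeric hρ hρr hr hpos hε1
    have h3 : ‖v z‖ ≤ ∑' k, 2 * (r ^ k * min 1 (ε / ρ ^ k)) := by
      rw [← (h1 z hz1).tsum_eq]
      exact tsum_of_norm_bounded (n1.mul_left 2).hasSum b3
    rw [tsum_mul_left] at h3
    refine h3.trans ?_
    rw [mul_assoc]
    gcongr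

/-- dimension two: the constant is finite -/
theorem two_dim {ρ r : ℝ} (hρ : 0 < ρ) (hρr : ρ < r) (hr : r < 1) : HasFiniteConstant 2 ρ r := by
  refine ⟨2 * (1 / (1 - ρ / r) + 1 / (1 - r)), fun u hu => ?_⟩
  obtain ⟨hh, hlub⟩ := hu
  let ι := Complex.orthonormalBasisOneI.repr
  have hball : ∀ {s : ℝ} {z : ℂ}, z ∈ ball (0 : ℂ) s → ι z ∈ ball (0 : EuclideanSpace ℝ (Fin 2)) s := by
    intro s z hz
    rw [mem_ball_zero_iff] at hz ⊢
    rwa [LinearIsometryEquiv.norm_map]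
  have hv : HarmonicOnNhd (u ∘ ι) (ball 0 1) := fun z hz => harmonicAt_comp_iso ι (hh _ (hball hz))
  have hr0 : 0 < r := hρ.trans hρr
  have hb : BddAbove ((fun x => ‖u x‖) '' ball 0 ρ) := by
    refine ⟨1, ?_⟩
    rintro _ ⟨x, hx, rfl⟩
    exact hlub.1 ⟨x, ball_subset_ball (hρr.trans hr).le hx, rfl⟩
  have hε0 : 0 ≤ supNorm u ρ :=
    (norm_nonneg (u 0)).trans (le_csSup hb ⟨0, mem_ball_self hρ, rfl⟩)
  have hε1 : supNorm u ρ ≤ 1 := by
    refine csSup_le ⟨_, ⟨0, mem_ball_self hρ, rfl⟩⟩ ?_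
    rintro _ ⟨x, hx, rfl⟩
    exact hlub.1 ⟨x, ball_subset_ball (hρr.trans hr).le hx, rfl⟩
  refine csSup_le ⟨_, ⟨0, mem_ball_self hr0, rfl⟩⟩ ?_
  rintro _ ⟨x, hx, rfl⟩
  have hz : ι.symm x ∈ ball (0 : ℂ) r := by
    rw [mem_ball_zero_iff] at hx ⊢
    rwa [LinearIsometryEquiv.norm_map]
  have h := plane hv hρ hρr hr (fun z hz => hlub.1 ⟨ι z, hball hz, rfl⟩) hε0 hε1
    (fun z hz => le_csSup hb ⟨ι z, hball hz, rfl⟩) hz
  simpa using h

/-- **Three balls inequality with the Hadamard exponent.** For `n = 2` the constant is finite for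
all `0 < ρ < r < 1`; for `n ≥ 3` there is no finite constant for any `0 < ρ < r < 1`. -/
theorem result : (∀ ρ r : ℝ, 0 < ρ → ρ < r → r < 1 → HasFiniteConstant 2 ρ r) ∧
    ∀ n : ℕ, 3 ≤ n → ∀ ρ r : ℝ, 0 < ρ → ρ < r → r < 1 → ¬ HasFiniteConstant n ρ r :=
  ⟨fun _ _ h1 h2 h3 => two_dim h1 h2 h3, fun _ hn _ _ h1 h2 h3 => no_constant hn h1 h2 h3⟩

end Pool.Agent.Results.MP_1096cc_an.ThreeBalls
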